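import Pool.Agent.MWGR.StmtsC

/-!
# Squad MWGR, row CRM (MP_23468a_al): labels modulo n, symmetry, transitivity
-/

set_option autoImplicit false

namespace Pool.Agent.MWGR.H77

open Pool.Agent.Helper14_MV Pool.Agent.Helper2_MV Pool.Agent.MVO Pool.Agent.MWL Pool.Agent.MWS
  Pool.Agent.MWH Pool.Agent.MWGR

/-- the block with the label `s` -/
def Wl (n x a : ℕ) (A D : List ℕ) (s : ℕ) : List ℕ :=
  A ++ (List.replicate (n + s) x ++ a :: (List.replicate (n + (n - 1) * s) x ++ D))

theorem wl_cnt (n x a : ℕ) (A D : List ℕ) (s y : ℕ) : (Wl n x a A D s).count y =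
    A.count y + ((if x = y then n + s else 0) + ((if a = y then 1 else 0) +
      ((if x = y then n + (n - 1) * s else 0) + D.count y))) := by
  unfold Wl
  simp only [List.count_append, List.count_cons, List.count_replicate, beq_iff_eq]
  split <;> split <;> omega

theorem wl_x {n : ℕ} (hn : 1 ≤ n) {H pre suf : List ℕ} {x a : ℕ} {A D : List ℕ} {s : ℕ}
    (h : Ok1 H pre suf (Wl n x a A D s)) : x ∈ H := by
  by_contra hx
  have h1 : x ∈ Wl n x a A D s := by
    unfold Wl
    refine List.mem_append_right _ (List.mem_append_left _ ?_)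
    exact List.mem_replicate.2 ⟨by omega, rfl⟩
  have h2 := (h.lt x h1 hx).1
  rw [wl_cnt, if_pos rfl, if_pos rfl] at h2
  omega

theorem wl_ok {n : ℕ} (hn : 1 ≤ n) {H pre suf : List ℕ} {x a : ℕ} {A D : List ℕ} {s : ℕ} (s' : ℕ)
    (h : Ok1 H pre suf (Wl n x a A D s)) : Ok1 H pre suf (Wl n x a A D s') := by
  have hx := wl_x hn h
  refine ⟨h.nd, ?_, ?_⟩
  · intro y hy
    by_cases hxy : x = y
    · rw [wl_cnt, if_pos hxy, if_pos hxy]
      omega
    · have h1 := h.hv y hy
      rw [wl_cnt, if_neg hxy, if_neg hxy] at h1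
      rw [wl_cnt, if_neg hxy, if_neg hxy]
      exact h1
  · intro y hy hyH
    have hxy : ¬ x = y := fun he => hyH (he ▸ hx)
    have hc : (Wl n x a A D s').count y = (Wl n x a A D s).count y := by
      rw [wl_cnt, wl_cnt, if_neg hxy, if_neg hxy, if_neg hxy, if_neg hxy]
    have hm : y ∈ Wl n x a A D s := by
      rw [← List.count_pos_iff, ← hc, List.count_pos_iff]
      exact hy
    rw [hc]
    exact h.lt y hm hyH

theorem wl_mod (h1 : ExlStmt) {n : ℕ} {η : FIC} (hB : BG n (RR η)) {H pre suf : List ℕ} {x a : ℕ}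
    {A D : List ℕ} {s s' : ℕ} (hs : s ≡ s' [MOD n]) (h : Ok1 H pre suf (Wl n x a A D s)) :
    RR η (Wd pre suf (Wl n x a A D s)) (Wd pre suf (Wl n x a A D s')) := by
  have hn := hB.pos
  have hx := wl_x hn h
  obtain ⟨j, rfl⟩ : ∃ j, n = j + 1 := ⟨n - 1, by omega⟩
  have e0 : ∀ t : ℕ, List.replicate (j + 1 + t) x = [x] ++ List.replicate (j + t) x := by
    intro t
    rw [show j + 1 + t = (j + t) + 1 by omega]
    rfl
  have e0' : ∀ t : ℕ, List.replicate (j + 1 + t) x = List.replicate (j + t) x ++ [x] := by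
    intro t
    rw [show j + 1 + t = (j + t) + 1 by omega, List.replicate_succ']
  have m1 : j + s ≡ j + s' [MOD j + 1] := Nat.ModEq.add_left j hs
  have m2 : j + (j + 1 - 1) * s ≡ j + (j + 1 - 1) * s' [MOD j + 1] :=
    Nat.ModEq.add_left j (Nat.ModEq.mul_left _ hs)
  -- the exponent before `a`
  have eA : ∀ t : ℕ, A ++ (List.replicate (j + 1 + t) x ++
      a :: (List.replicate (j + 1 + (j + 1 - 1) * s) x ++ D)) =
        (A ++ [x]) ++ (List.replicate (j + t) x ++
          (a :: (List.replicate (j + 1 + (j + 1 - 1) * s) x ++ D))) := by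
    intro t
    rw [e0 t]
    simp only [List.append_assoc]
  have h' : Ok1 H pre suf ((A ++ [x]) ++ (List.replicate (j + s) x ++
      (a :: (List.replicate (j + 1 + (j + 1 - 1) * s) x ++ D)))) := by
    rw [← eA s]
    exact h
  have k1 := h1 (j + 1) η hB H pre suf (A ++ [x])
    (a :: (List.replicate (j + 1 + (j + 1 - 1) * s) x ++ D)) x (j + s) (j + s') h' hx (by simp) (by
      refine List.mem_cons_of_mem _ (List.mem_append_left _ ?_)
      exact List.mem_replicate.2 ⟨by omega, rfl⟩) m1
  obtain ⟨k2, k3⟩ := k1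
  rw [← eA s, ← eA s'] at k3
  rw [← eA s'] at k2
  -- the exponent behind `a`
  have eB : ∀ t : ℕ, A ++ (List.replicate (j + 1 + s') x ++
      a :: (List.replicate (j + 1 + t) x ++ D)) =
        (A ++ (List.replicate (j + 1 + s') x ++ [a])) ++ (List.replicate (j + t) x ++
          (x :: D)) := by
    intro t
    rw [e0' t]
    simp only [List.append_assoc, List.cons_append, List.nil_append]
  rw [eB] at k2
  have k4 := h1 (j + 1) η hB H pre suf (A ++ (List.replicate (j + 1 + s') x ++ [a])) (x :: D) x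
    (j + (j + 1 - 1) * s) (j + (j + 1 - 1) * s') k2 hx (by
      refine List.mem_append_right _ (List.mem_append_left _ ?_)
      exact List.mem_replicate.2 ⟨by omega, rfl⟩) (by simp) m2
  obtain ⟨_, k5⟩ := k4
  rw [← eB, ← eB] at k5
  exact η.trans k3 k5

theorem crm (h1 : ExlStmt) : CrmStmt := by
  intro n η hB H pre suf x a
  have hn := hB.pos
  refine ⟨?_, ?_, ?_⟩
  · intro s s' hs A D h
    exact wl_mod h1 hB hs h
  · intro s s' hC A D h
    have h' : Ok1 H pre suf (Wl n x a A D s') := h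
    exact RR.symm (hC A D (wl_ok hn s h'))
  · intro s s' s'' hC hC' A D h
    have h' : Ok1 H pre suf (Wl n x a A D s) := h
    exact η.trans (hC A D h) (hC' A D (wl_ok hn s' h'))

end Pool.Agent.MWGR.H77
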