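import Pool.Agent.MWGR.StmtsD

/-!
# Squad MWGR, row DCR (MP_23468a_al): crossing a light letter in any context
-/

set_option autoImplicit false

namespace Pool.Agent.MWGR.H77

open Pool.Agent.Helper14_MV Pool.Agent.Helper2_MV Pool.Agent.MVO Pool.Agent.MWL Pool.Agent.MWS
  Pool.Agent.MWH Pool.Agent.MWGR

/-- substitution `0 ↦ a`, `1 ↦ b`, otherwise `c` -/
def s3 (a b c : List ℕ) (n : ℕ) : List ℕ := if n = 0 then a else if n = 1 then b else c

theorem fm_rep (f : ℕ → List ℕ) (x r k : ℕ) (h : f k = [x]) :
    (List.replicate r k).flatMap f = List.replicate r x := by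
  induction r with
  | zero => rfl
  | succ r ih =>
    rw [List.replicate_succ, List.flatMap_cons, ih, h]
    rfl

theorem dcr (h1 : ExgStmt) : DcrStmt := by
  intro n θ hB d hD p q x c s t _ hs ht hc
  obtain ⟨q1, q2, hq⟩ := List.append_of_mem hc
  -- the substituted identity
  have f0 : s3 [x] [c] (List.replicate t x ++ q1) 0 = [x] := rfl
  have f1 : s3 [x] [c] (List.replicate t x ++ q1) 1 = [c] := rfl
  have f2 : s3 [x] [c] (List.replicate t x ++ q1) 2 = List.replicate t x ++ q1 := rfl
  have h2 := RR.sub (s3 [x] [c] (List.replicate t x ++ q1)) hD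
  have e1 : ∀ a b : ℕ, (List.replicate a 0 ++ 1 :: (List.replicate b 0 ++ [2, 1])).flatMap
      (s3 [x] [c] (List.replicate t x ++ q1)) = List.replicate a x ++ c :: (List.replicate b x ++
        (List.replicate t x ++ (q1 ++ [c]))) := by
    intro a b
    simp only [List.flatMap_append, List.flatMap_cons, List.flatMap_nil, fm_rep _ x _ 0 f0, f1, f2,
      List.append_nil, List.append_assoc, List.singleton_append]
  have h3 : RR θ (List.replicate (n + d) x ++ c :: (List.replicate n x ++
      (List.replicate t x ++ (q1 ++ [c])))) (List.replicate n x ++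
        c :: (List.replicate (n + d) x ++ (List.replicate t x ++ (q1 ++ [c])))) := by
    rw [← e1, ← e1]
    exact h2
  have h4 := (RR.refl (β := θ) (p ++ List.replicate s x)).append (h3.append (RR.refl q2))
  have e2 : ∀ a b : ℕ, (p ++ List.replicate s x) ++ ((List.replicate a x ++ c ::
      (List.replicate b x ++ (List.replicate t x ++ (q1 ++ [c])))) ++ q2) =
        p ++ (List.replicate (s + a) x ++ c :: (List.replicate (b + t) x ++ q)) := by
    intro a b
    rw [hq, List.replicate_add, List.replicate_add]
    simp only [List.append_assoc, List.cons_append, List.nil_append]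
  rw [e2, e2] at h4
  -- exponents before `c`
  have modn : ∀ a : ℕ, a ≡ a + n [MOD n] := by
    intro a
    exact (Nat.add_modEq_right).symm
  have kA : ∀ (a b : ℕ), 1 ≤ a → 1 ≤ b → RR θ (p ++ (List.replicate a x ++
      c :: (List.replicate b x ++ q))) (p ++ (List.replicate (a + n) x ++
        c :: (List.replicate b x ++ q))) := by
    intro a b ha hb
    obtain ⟨b', rfl⟩ : ∃ b', b = b' + 1 := ⟨b - 1, by omega⟩
    refine ((h1 n θ hB p (c :: (List.replicate (b' + 1) x ++ q)) x a (a + n) (modn a)).2.2.2 [c]
      (List.replicate b' x ++ q) rfl ha (by omega) ?_)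
    intro c' hc' _
    rw [List.mem_singleton] at hc'
    subst hc'
    rw [List.count_append, List.count_cons_self, List.count_append]
    have : 0 < q.count c' := List.count_pos_iff.2 hc
    omega
  -- exponents behind `c`
  have kB : ∀ (a b : ℕ), 1 ≤ a → 1 ≤ b → RR θ (p ++ (List.replicate a x ++
      c :: (List.replicate b x ++ q))) (p ++ (List.replicate a x ++
        c :: (List.replicate (b + n) x ++ q))) := by
    intro a b ha hb
    have k1 := (h1 n θ hB (p ++ (List.replicate a x ++ [c])) q x b (b + n) (modn b)).1 (by
      refine List.mem_append_right _ (List.mem_append_left _ ?_)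
      exact List.mem_replicate.2 ⟨by omega, rfl⟩) hb (by omega)
    simp only [List.append_assoc, List.cons_append, List.nil_append] at k1
    exact k1
  have r1 := kA (s + d) t (by omega) ht
  have r2 := kB (s + d + n) t (by omega) ht
  have r3 := kB (s + n) (t + d) (by omega) (by omega)
  have r4 := kA s (t + d) hs (by omega)
  have e5 : s + (n + d) = s + d + n := by omega
  have e6 : n + t = t + n := by omega
  have e7 : n + d + t = t + d + n := by omega
  rw [e5, e6, e7] at h4
  exact θ.trans (θ.trans (θ.trans (θ.trans r1 r2) h4) (RR.symm r3)) (RR.symm r4)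

end Pool.Agent.MWGR.H77
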